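import Mathlib
import Pool.Agent.Y737.HE.Main

/-!
# The Hamming graphs embed into `E(Z)` for every outer space `E`

For every normed space `E` with a normalised 1-unconditional sequence `u` (more generally, with
`‖∑ a_n u_n‖ ≤ ‖∑ b_n u_n‖` for `0 ≤ a_n ≤ b_n`) and every `Z` whose norm has, on some sequence `v`,
an upper `c₀`-estimate for at most `k` successive blocks beyond `k` (such as `T*`), the Hamming
graphs embed equi-coarsely into the sum `E(Z)`.

* If the norms `‖u_0 + ... + u_(n-1)‖` are unbounded one uses, at each dyadic scale, a bounded map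
  to `Z` which reads the initial parts of the tuples (the construction of
  `Pool/Agent/W696/TS/Embed.lean`, here with an arbitrary constant and an arbitrary outer space).
* If these norms are bounded the sum contains the finitely supported part of `c₀`, and a coarse
  form of Aharoni's theorem applies (`Pool/Agent/Y737/HE/Aha.lean`).
-/

set_option autoImplicit false

namespace Pool.Agent.Results.MP_6dccca_an.EveryOuterSpace

open Pool.Agent.W696.TS Pool.Agent.Y737.HE
open Pool.Agent.H825R3.Tsi (IsTsirelson Biorthogonal)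

/-- (1) If `v` is a sequence in `Z` with an upper `c₀`-estimate with constant `C` for at most `k`
successive blocks beyond `k`, then for every outer sequence `u` in a normed space `E` the Hamming
graphs embed equi-coarsely into every sum `Y = E(Z)`. Moreover there are maps from `H_k` to `Y`
which are Lipschitz with constant `C^2 + 2 C` and for which `‖f m - f n‖` is at least the norm of
`u_0 + ... + u_(P-1)` whenever `d (m, n) ≥ 2^(P+1)`.
(2) For every complete `Z` and every `u` there is a Banach space `E(Z)`.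
(3) Tsirelson space exists. In `T*` the biorthogonal functionals are a sequence `v` as in (1), with
`C = 2`, and also an outer sequence, and `T*(T*)` is the corresponding sum.
(4) There is a space `W` with a sequence which is of both kinds such that some sum `W(W)` is an
infinite dimensional, reflexive and asymptotic-subsequential-`c₀` Banach space. -/
theorem result :
    (∀ (Z : Type) [NormedAddCommGroup Z] [NormedSpace ℝ Z] (C : ℝ) (v : ℕ → Z), 0 < C →
      IsC0Seq C v →
      ∀ (E : Type) [NormedAddCommGroup E] [NormedSpace ℝ E] (u : ℕ → E), IsMonoSeq u →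
      ∀ (Y : Type) [NormedAddCommGroup Y] [NormedSpace ℝ Y] (Θ : Y →ₗ[ℝ] (ℕ → Z)), IsSum u Θ →
        EquiCoarselyEmbeds HV dH Y ∧
        ∀ k : ℕ, ∃ f : HV k → Y, ∀ m n,
          (∀ P : ℕ, (2 : ℝ) ^ (P + 1) ≤ dH k m n →
            ‖∑ j ∈ Finset.range P, u j‖ ≤ ‖f m - f n‖) ∧
          ‖f m - f n‖ ≤ (C ^ 2 + 2 * C) * dH k m n) ∧
    (∀ (Z : Type) [NormedAddCommGroup Z] [NormedSpace ℝ Z] [CompleteSpace Z]
      (E : Type) [NormedAddCommGroup E] [NormedSpace ℝ E] (u : ℕ → E), IsMonoSeq u →
      ∃ (Y : Type) (_ : NormedAddCommGroup Y) (_ : NormedSpace ℝ Y) (_ : CompleteSpace Y)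
        (Θ : Y →ₗ[ℝ] (ℕ → Z)), IsSum u Θ) ∧
    (∃ (T : Type) (_ : NormedAddCommGroup T) (_ : NormedSpace ℝ T) (e : ℕ → T),
      IsTsirelson T e) ∧
    (∀ (T : Type) [NormedAddCommGroup T] [NormedSpace ℝ T] (e : ℕ → T), IsTsirelson T e →
      (∃ (Y : Type) (_ : NormedAddCommGroup Y) (_ : NormedSpace ℝ Y)
        (Θ : Y →ₗ[ℝ] (ℕ → StrongDual ℝ T)), IsTStarTStar e Y Θ) ∧
      (∃ es : ℕ → StrongDual ℝ T, Biorthogonal e es) ∧
      ∀ es : ℕ → StrongDual ℝ T, Biorthogonal e es → IsC0Seq 2 es ∧ IsMonoSeq es ∧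
        ∀ (Y : Type) [NormedAddCommGroup Y] [NormedSpace ℝ Y]
          (Θ : Y →ₗ[ℝ] (ℕ → StrongDual ℝ T)), IsTStarTStar e Y Θ → IsSum es Θ) ∧
    (∃ (W : Type) (_ : NormedAddCommGroup W) (_ : NormedSpace ℝ W) (v : ℕ → W),
      IsC0Seq 2 v ∧ IsMonoSeq v ∧
      ∃ (X : Type) (_ : NormedAddCommGroup X) (_ : NormedSpace ℝ X) (_ : CompleteSpace X)
        (Θ : X →ₗ[ℝ] (ℕ → W)), IsSum v Θ ∧ ¬ FiniteDimensional ℝ X ∧
        Function.Surjective (NormedSpace.inclusionInDoubleDual ℝ X) ∧
        AsymptoticSubsequentialC0 X) := by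
  refine ⟨?_, ?_, ?_, ?_, ?_⟩
  · intro Z _ _ C v hC hv E _ _ u hu Y _ _ Θ hY
    exact embeds_seq hC hv hu hY
  · intro Z _ _ _ E _ _ u hu
    exact exists_sum hu Z
  · exact ⟨_, _, _, _, Pool.Agent.H825R3.Tsi.isTsirelson_TT⟩
  · intro T _ _ e h
    refine ⟨⟨TStarTStar h, _, _, valL h, isTStarTStar_concrete h⟩, h.exists_biorth,
      fun es hes => ⟨isC0Seq_es h hes, isMonoSeq_es h hes, fun Y _ _ Θ hY =>
        isSum_of_isTStarTStar hes Y Θ hY⟩⟩
  · obtain ⟨Θ, hΘ⟩ := isSum_X
    exact ⟨W, inferInstance, inferInstance, wv, isC0Seq_wv, isMonoSeq_wv, X, inferInstance,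
      inferInstance, inferInstance, Θ, hΘ, X_infinite, X_reflexive, X_asym⟩

end Pool.Agent.Results.MP_6dccca_an.EveryOuterSpace
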